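import Mathlib

/-!
No uniform bound on the exponents of simple tensor powers.

For every n we build the fusion category CC n, the crossed product of Rep(S3 ^ n) by the cyclic
group Z/n acting by cyclic shifts of the n factors. An object is a finite dimensional complex
vector space graded by Z/n with an action of S3 ^ n preserving the grading (equivalently a
representation of the group KG n S3 = S3 ^ n x Z/n, the second factor acting on the degree i part
through the i-th character), and x in S3 ^ n acts on V_i tensor W_j by x tensor (shift^i x).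
The object XX n is the two dimensional irreducible representation of the zeroth factor S3, placed
in degree 1. Its N-th tensor power is V box ... box V (N factors) placed in degree N, which is
simple for all N at most n.
-/

open CategoryTheory CategoryTheory.Limits CategoryTheory.MonoidalCategory

namespace Pool.Agent.Results.MP_4aeb90_al.NoUniformBound

set_option linter.unusedSectionVars false

noncomputable section

universe v u

/-! ### Definitions used in the statement -/

section Defs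

variable (C : Type u) [Category.{v} C] [Abelian C] [Linear ℂ C] [HasFiniteBiproducts C]
  [MonoidalCategory C] [MonoidalPreadditive C] [MonoidalLinear ℂ C] [RigidCategory C]

/-- A fusion category over ℂ: an abelian ℂ-linear rigid monoidal category (with bilinear tensor
product) with finite dimensional Hom spaces, simple unit, in which every object is a finite direct
sum of simple objects, and with finitely many isomorphism classes of simple objects. -/
structure IsFusionCategory : Prop where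
  finiteDimensional_hom : ∀ X Y : C, FiniteDimensional ℂ (X ⟶ Y)
  simple_unit : Simple (𝟙_ C)
  semisimple : ∀ X : C, ∃ (m : ℕ) (f : Fin m → C), (∀ k, Simple (f k)) ∧ Nonempty (X ≅ ⨁ f)
  finitely_many_simples : ∃ (m : ℕ) (S : Fin m → C), ∀ X : C, Simple X → ∃ i, Nonempty (X ≅ S i)

variable {C}

/-- S lists the simple objects, each isomorphism class exactly once. -/
structure ListsSimples {r : ℕ} (S : Fin r → C) : Prop where
  simple : ∀ i, Simple (S i)
  injective : ∀ i j, Nonempty (S i ≅ S j) → i = j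
  complete : ∀ X : C, Simple X → ∃ i, Nonempty (X ≅ S i)

/-- The matrix of left multiplication by [X] on the Grothendieck ring in the basis of simple
objects: the (j, k) entry is the multiplicity of S k in X ⊗ S j. -/
def leftMultMatrix {r : ℕ} (S : Fin r → C) (X : C) : Matrix (Fin r) (Fin r) ℝ :=
  fun j k => (Module.finrank ℂ (X ⊗ S j ⟶ S k) : ℝ)

/-- The Frobenius-Perron dimension of X: the largest real eigenvalue of the matrix of left
multiplication by [X]. -/
def FPdim {r : ℕ} (S : Fin r → C) (X : C) : ℝ :=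
  sSup {t : ℝ | ∃ w : Fin r → ℝ, w ≠ 0 ∧ (leftMultMatrix S X).mulVec w = t • w}

/-- The tensor power X ^ ⊗ N. -/
def tensorPow (X : C) (N : ℕ) : C :=
  Nat.rec (motive := fun _ => C) (𝟙_ C) (fun _ Y => Y ⊗ X) N

omit [Abelian C] [Linear ℂ C] [HasFiniteBiproducts C] [MonoidalPreadditive C]
  [MonoidalLinear ℂ C] [RigidCategory C] in
lemma tensorPow_zero (X : C) : tensorPow X 0 = 𝟙_ C := rfl

omit [Abelian C] [Linear ℂ C] [HasFiniteBiproducts C] [MonoidalPreadditive C]
  [MonoidalLinear ℂ C] [RigidCategory C] in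
lemma tensorPow_succ (X : C) (N : ℕ) : tensorPow X (N + 1) = tensorPow X N ⊗ X := rfl

end Defs


/-- the group G ^ n x Z/n -/
abbrev KG (n : ℕ) (G : Type) : Type := (ZMod n → G) × Multiplicative (ZMod n)

section Core

variable {n : ℕ} [NeZero n] {G : Type} [Group G]
variable {𝒱 : Type u} [Category.{v} 𝒱] [Preadditive 𝒱] [Linear ℂ 𝒱]

/-- cyclic shift -/
def sh (i : ZMod n) : (ZMod n → G) →* (ZMod n → G) where
  toFun x := fun j => x (j + i)
  map_one' := rfl
  map_mul' _ _ := rfl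

lemma sh_sh (i j : ZMod n) (x : ZMod n → G) : sh i (sh j x) = sh (i + j) x := by
  ext k; simp [sh, add_assoc]

lemma sh_zero (x : ZMod n → G) : sh 0 x = x := by ext k; simp [sh]

/-- the action of a group element, as a morphism -/
def act (X : Action 𝒱 (KG n G)) (g : KG n G) : X.V ⟶ X.V := X.ρ g

lemma act_mul (X : Action 𝒱 (KG n G)) (g h : KG n G) : act X (g * h) = act X h ≫ act X g :=
  map_mul X.ρ g h

lemma act_one (X : Action 𝒱 (KG n G)) : act X 1 = 𝟙 _ := map_one X.ρ

lemma act_hom {X Y : Action 𝒱 (KG n G)} (f : X ⟶ Y) (g : KG n G) :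
    act X g ≫ f.hom = f.hom ≫ act Y g := f.comm g

/-- the action of the second component -/
def rz (X : Action 𝒱 (KG n G)) (z : ZMod n) : X.V ⟶ X.V := act X (1, Multiplicative.ofAdd z)

lemma rz_zero (X : Action 𝒱 (KG n G)) : rz X 0 = 𝟙 _ := by
  unfold rz; exact act_one X

lemma rz_add (X : Action 𝒱 (KG n G)) (z w : ZMod n) : rz X (z + w) = rz X z ≫ rz X w := by
  unfold rz
  rw [← act_mul]
  congr 1
  rw [add_comm]
  simp [Prod.mk_mul_mk, ofAdd_add]

lemma rz_comm (X : Action 𝒱 (KG n G)) (z : ZMod n) (g : KG n G) :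
    rz X z ≫ act X g = act X g ≫ rz X z := by
  unfold rz
  rw [← act_mul, ← act_mul]
  congr 1
  ext
  · simp
  · simp [mul_comm]

/-- homogeneous projection -/
def P (X : Action 𝒱 (KG n G)) (i : ZMod n) : X.V ⟶ X.V :=
  (n : ℂ)⁻¹ • ∑ z : ZMod n, (ZMod.stdAddChar (-(i * z)) : ℂ) • rz X z

lemma P_act (X : Action 𝒱 (KG n G)) (i : ZMod n) (g : KG n G) :
    P X i ≫ act X g = act X g ≫ P X i := by
  simp only [P, Linear.smul_comp, Linear.comp_smul, Preadditive.sum_comp, Preadditive.comp_sum,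
    rz_comm]

lemma P_hom {X Y : Action 𝒱 (KG n G)} (f : X ⟶ Y) (i : ZMod n) :
    P X i ≫ f.hom = f.hom ≫ P Y i := by
  simp only [P, Linear.smul_comp, Linear.comp_smul, Preadditive.sum_comp, Preadditive.comp_sum,
    rz, act_hom]

lemma sum_char (k : ZMod n) :
    ∑ z : ZMod n, (ZMod.stdAddChar (k * z) : ℂ) = if k = 0 then (n : ℂ) else 0 := by
  have h := AddChar.sum_mulShift (R' := ℂ) (ψ := ZMod.stdAddChar (N := n)) k (ZMod.isPrimitive_stdAddChar n)
  simp only [ZMod.card] at h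
  rw [← Finset.sum_congr rfl (fun z _ => by rw [mul_comm]), h]
  split_ifs <;> simp

lemma nC : (n : ℂ) ≠ 0 := Nat.cast_ne_zero.mpr (NeZero.ne n)

lemma P_rz (X : Action 𝒱 (KG n G)) (i w : ZMod n) :
    P X i ≫ rz X w = (ZMod.stdAddChar (i * w) : ℂ) • P X i := by
  simp only [P, Linear.smul_comp, Preadditive.sum_comp, ← rz_add]
  rw [smul_comm]
  congr 1
  rw [Finset.smul_sum]
  refine Fintype.sum_equiv (Equiv.addRight w) _ _ (fun z => ?_)
  simp only [Equiv.coe_addRight, smul_smul]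
  congr 1
  rw [← AddChar.map_add_eq_mul]
  congr 1
  ring

lemma P_sum (X : Action 𝒱 (KG n G)) : ∑ i, P X i = 𝟙 X.V := by
  simp only [P, ← Finset.smul_sum]
  rw [Finset.sum_comm]
  simp only [← Finset.sum_smul]
  have : ∀ z : ZMod n, ∑ i : ZMod n, (ZMod.stdAddChar (-(i * z)) : ℂ) =
      if z = 0 then (n : ℂ) else 0 := by
    intro z
    have := sum_char (n := n) (-z)
    simp only [neg_eq_zero] at this
    rw [← this]
    refine Finset.sum_congr rfl (fun i _ => ?_)
    congr 1; ring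
  simp only [this, ite_smul, zero_smul, Finset.sum_ite_eq', Finset.mem_univ, if_true]
  rw [rz_zero, smul_smul, inv_mul_cancel₀ nC, one_smul]

lemma P_comp (X : Action 𝒱 (KG n G)) (i j : ZMod n) :
    P X i ≫ P X j = if i = j then P X i else 0 := by
  conv_lhs => rw [show P X j = (n : ℂ)⁻¹ • ∑ z : ZMod n, (ZMod.stdAddChar (-(j * z)) : ℂ) • rz X z from rfl]
  simp only [Linear.comp_smul, Preadditive.comp_sum, P_rz, smul_smul, ← AddChar.map_add_eq_mul]
  rw [← Finset.sum_smul]
  have : ∑ z : ZMod n, (ZMod.stdAddChar (-(j * z) + i * z) : ℂ) = if i = j then (n : ℂ) else 0 := by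
    have := sum_char (n := n) (i - j)
    simp only [sub_eq_zero] at this
    rw [← this]
    refine Finset.sum_congr rfl (fun z _ => ?_)
    congr 1; ring
  rw [this]
  split_ifs
  · rw [smul_smul, inv_mul_cancel₀ nC, one_smul]
  · simp

/-- the action of the second component in terms of the projections -/
lemma rz_eq (X : Action 𝒱 (KG n G)) (w : ZMod n) :
    rz X w = ∑ i, (ZMod.stdAddChar (i * w) : ℂ) • P X i := by
  rw [← Category.id_comp (rz X w), ← P_sum X, Preadditive.sum_comp]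
  simp only [P_rz]

/-- the projections are determined by the action of the second component -/
lemma P_eq_of_rz (X : Action 𝒱 (KG n G)) (Q : ZMod n → (X.V ⟶ X.V))
    (h : ∀ w, rz X w = ∑ i, (ZMod.stdAddChar (i * w) : ℂ) • Q i) (j : ZMod n) : P X j = Q j := by
  unfold P
  simp only [h, Finset.smul_sum, smul_smul]
  rw [Finset.sum_comm]
  have : ∀ i : ZMod n, ∑ z : ZMod n, ((n:ℂ)⁻¹ * ((ZMod.stdAddChar (-(j * z)) : ℂ) * ZMod.stdAddChar (i * z))) =
      if i = j then 1 else 0 := by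
    intro i
    rw [← Finset.mul_sum]
    have h2 := sum_char (n := n) (i - j)
    simp only [sub_eq_zero] at h2
    have : ∑ z : ZMod n, ((ZMod.stdAddChar (-(j * z)) : ℂ) * ZMod.stdAddChar (i * z)) = if i = j then (n : ℂ) else 0 := by
      rw [← h2]
      refine Finset.sum_congr rfl (fun z _ => ?_)
      rw [← AddChar.map_add_eq_mul]
      congr 1; ring
    rw [this]
    split_ifs
    · exact inv_mul_cancel₀ nC
    · simp
  simp only [← Finset.sum_smul, this, ite_smul, one_smul, zero_smul, Finset.sum_ite_eq',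
    Finset.mem_univ, if_true]

end Core

section Mon

variable {n : ℕ} [NeZero n] {G : Type} [Group G]
variable {𝒱 : Type u} [Category.{v} 𝒱] [Preadditive 𝒱] [Linear ℂ 𝒱]
  [MonoidalCategory 𝒱] [MonoidalPreadditive 𝒱] [MonoidalLinear ℂ 𝒱]

/-- twisted action -/
def tw (X Y : Action 𝒱 (KG n G)) (g : KG n G) : X.V ⊗ Y.V ⟶ X.V ⊗ Y.V :=
  ∑ i : ZMod n, (P X i ≫ act X g) ⊗ₘ act Y (sh i g.1, g.2)

lemma tw_one (X Y : Action 𝒱 (KG n G)) : tw X Y 1 = 𝟙 _ := by
  unfold tw
  have : ∀ i : ZMod n, ((sh i (1 : KG n G).1, (1 : KG n G).2) : KG n G) = 1 := by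
    intro i; ext <;> simp
  simp only [this, act_one, Category.comp_id]
  rw [← sum_tensor, P_sum, id_tensorHom_id]

lemma P_act_comp (X : Action 𝒱 (KG n G)) (i j : ZMod n) (g h : KG n G) :
    (P X i ≫ act X g) ≫ (P X j ≫ act X h) = if i = j then P X i ≫ act X g ≫ act X h else 0 := by
  rw [Category.assoc, ← Category.assoc (act X g), ← P_act, Category.assoc,
    ← Category.assoc (P X i), P_comp]
  split_ifs <;> simp

lemma tw_mul (X Y : Action 𝒱 (KG n G)) (g h : KG n G) :
    tw X Y (g * h) = tw X Y h ≫ tw X Y g := by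
  unfold tw
  rw [Preadditive.sum_comp]
  refine Finset.sum_congr rfl (fun i _ => ?_)
  rw [Preadditive.comp_sum, Finset.sum_eq_single i]
  · rw [tensorHom_comp_tensorHom, act_mul, P_act_comp, if_pos rfl, ← act_mul Y]
    congr 1
  · intro j _ hj
    rw [tensorHom_comp_tensorHom, P_act_comp, if_neg (Ne.symm hj)]
    simp
  · simp

/-- tensor product object -/
abbrev tObj (X Y : Action 𝒱 (KG n G)) : Action 𝒱 (KG n G) where
  V := X.V ⊗ Y.V
  ρ :=
    { toFun := fun g => tw X Y g
      map_one' := tw_one X Y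
      map_mul' := fun g h => tw_mul X Y g h }

lemma act_tObj (X Y : Action 𝒱 (KG n G)) (g : KG n G) :
    act (tObj X Y) g = ∑ i : ZMod n, (P X i ≫ act X g) ⊗ₘ act Y (sh i g.1, g.2) := rfl

lemma rz_tObj (X Y : Action 𝒱 (KG n G)) (w : ZMod n) :
    rz (tObj X Y) w = rz X w ⊗ₘ rz Y w := by
  unfold rz
  rw [act_tObj]
  have : ∀ i : ZMod n, ((sh i (1 : ZMod n → G), Multiplicative.ofAdd w) : KG n G)
      = (1, Multiplicative.ofAdd w) := by
    intro i; ext <;> simp
  simp only [this]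
  rw [← sum_tensor, ← Preadditive.sum_comp, P_sum, Category.id_comp]

lemma smul_tensor {A B C D : 𝒱} (r : ℂ) (f : A ⟶ B) (g : C ⟶ D) :
    (r • f) ⊗ₘ g = r • (f ⊗ₘ g) := by
  simp [MonoidalCategory.tensorHom_def]

lemma tensor_smul {A B C D : 𝒱} (r : ℂ) (f : A ⟶ B) (g : C ⟶ D) :
    f ⊗ₘ (r • g) = r • (f ⊗ₘ g) := by
  simp [MonoidalCategory.tensorHom_def]

lemma P_tObj (X Y : Action 𝒱 (KG n G)) (j : ZMod n) :
    P (tObj X Y) j = ∑ a : ZMod n, P X a ⊗ₘ P Y (j - a) := by
  refine P_eq_of_rz (tObj X Y) (fun j => ∑ a : ZMod n, P X a ⊗ₘ P Y (j - a)) ?_ j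
  intro w
  rw [rz_tObj, rz_eq X, rz_eq Y]
  simp only [sum_tensor, tensor_sum, Finset.smul_sum, smul_tensor, tensor_smul, smul_smul]
  conv_rhs => rw [Finset.sum_comm]
  rw [Finset.sum_comm]
  refine Finset.sum_congr rfl (fun a _ => ?_)
  refine Fintype.sum_equiv (Equiv.addLeft a) _ _ (fun b => ?_)
  simp only [Equiv.coe_addLeft, add_sub_cancel_left]
  congr 1
  rw [← AddChar.map_add_eq_mul]
  congr 1
  ring

/-- unit object -/
abbrev tUnit : Action 𝒱 (KG n G) where
  V := 𝟙_ 𝒱
  ρ := 1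

lemma act_tUnit (g : KG n G) : act (tUnit : Action 𝒱 (KG n G)) g = 𝟙 _ := rfl

lemma P_tUnit (i : ZMod n) : P (tUnit : Action 𝒱 (KG n G)) i = if i = 0 then 𝟙 _ else 0 := by
  refine P_eq_of_rz (tUnit : Action 𝒱 (KG n G)) (fun i => if i = 0 then 𝟙 _ else 0) ?_ i
  intro w
  simp only [smul_ite, smul_zero, Finset.sum_ite_eq', Finset.mem_univ, if_true, zero_mul,
    AddChar.map_zero_eq_one, one_smul]
  rfl

/-- whiskering -/
def tWL (X : Action 𝒱 (KG n G)) {Y Z : Action 𝒱 (KG n G)} (f : Y ⟶ Z) : tObj X Y ⟶ tObj X Z where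
  hom := X.V ◁ f.hom
  comm g := by
    change act (tObj X Y) g ≫ _ = _ ≫ act (tObj X Z) g
    rw [act_tObj, act_tObj, Preadditive.sum_comp, Preadditive.comp_sum]
    refine Finset.sum_congr rfl (fun i _ => ?_)
    rw [← id_tensorHom, tensorHom_comp_tensorHom, tensorHom_comp_tensorHom, act_hom]
    simp

def tWR {X Y : Action 𝒱 (KG n G)} (f : X ⟶ Y) (Z : Action 𝒱 (KG n G)) : tObj X Z ⟶ tObj Y Z where
  hom := f.hom ▷ Z.V
  comm g := by
    change act (tObj X Z) g ≫ _ = _ ≫ act (tObj Y Z) g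
    rw [act_tObj, act_tObj, Preadditive.sum_comp, Preadditive.comp_sum]
    refine Finset.sum_congr rfl (fun i _ => ?_)
    rw [← tensorHom_id, tensorHom_comp_tensorHom, tensorHom_comp_tensorHom, Category.assoc,
      act_hom, ← Category.assoc, P_hom, Category.assoc]
    simp

def tTH {X Y X' Y' : Action 𝒱 (KG n G)} (f : X ⟶ Y) (g : X' ⟶ Y') : tObj X X' ⟶ tObj Y Y' where
  hom := f.hom ⊗ₘ g.hom
  comm k := by
    change act (tObj X X') k ≫ _ = _ ≫ act (tObj Y Y') k
    rw [act_tObj, act_tObj, Preadditive.sum_comp, Preadditive.comp_sum]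
    refine Finset.sum_congr rfl (fun i _ => ?_)
    rw [tensorHom_comp_tensorHom, tensorHom_comp_tensorHom, Category.assoc,
      act_hom, ← Category.assoc, P_hom, Category.assoc, act_hom]

lemma act_assoc_left (X Y Z : Action 𝒱 (KG n G)) (g : KG n G) :
    act (tObj (tObj X Y) Z) g = ∑ a : ZMod n, ∑ c : ZMod n,
      ((P X a ≫ act X g) ⊗ₘ (P Y c ≫ act Y (sh a g.1, g.2))) ⊗ₘ act Z (sh (a + c) g.1, g.2) := by
  rw [act_tObj]
  have h1 : ∀ i, P (tObj X Y) i ≫ act (tObj X Y) g =
      ∑ a : ZMod n, (P X a ≫ act X g) ⊗ₘ (P Y (i - a) ≫ act Y (sh a g.1, g.2)) := by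
    intro i
    rw [P_tObj, act_tObj, Preadditive.sum_comp]
    refine Finset.sum_congr rfl (fun a _ => ?_)
    rw [Preadditive.comp_sum, Finset.sum_eq_single a]
    · rw [tensorHom_comp_tensorHom, ← Category.assoc, P_comp, if_pos rfl]
    · intro b _ hb
      rw [tensorHom_comp_tensorHom, ← Category.assoc, P_comp, if_neg (Ne.symm hb)]
      simp
    · simp
  simp only [h1, sum_tensor]
  rw [Finset.sum_comm]
  refine Finset.sum_congr rfl (fun a _ => ?_)
  refine (Fintype.sum_equiv (Equiv.addLeft a) _ _ (fun c => ?_)).symm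
  simp

lemma act_assoc_right (X Y Z : Action 𝒱 (KG n G)) (g : KG n G) :
    act (tObj X (tObj Y Z)) g = ∑ a : ZMod n, ∑ c : ZMod n,
      (P X a ≫ act X g) ⊗ₘ ((P Y c ≫ act Y (sh a g.1, g.2)) ⊗ₘ act Z (sh (a + c) g.1, g.2)) := by
  rw [act_tObj]
  refine Finset.sum_congr rfl (fun a _ => ?_)
  rw [act_tObj, tensor_sum]
  refine Finset.sum_congr rfl (fun c _ => ?_)
  simp only [sh_sh, add_comm]

/-- associator -/
def tAssoc (X Y Z : Action 𝒱 (KG n G)) : tObj (tObj X Y) Z ≅ tObj X (tObj Y Z) :=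
  Action.mkIso (α_ X.V Y.V Z.V) (by
    intro g
    change act (tObj (tObj X Y) Z) g ≫ _ = _ ≫ act (tObj X (tObj Y Z)) g
    rw [act_assoc_left, act_assoc_right]
    simp only [Preadditive.sum_comp, Preadditive.comp_sum]
    refine Finset.sum_congr rfl (fun a _ => Finset.sum_congr rfl (fun c _ => ?_))
    rw [associator_naturality])

def tLeft (X : Action 𝒱 (KG n G)) : tObj tUnit X ≅ X :=
  Action.mkIso (λ_ X.V) (by
    intro g
    change act (tObj tUnit X) g ≫ _ = _ ≫ act X g
    rw [act_tObj, Finset.sum_eq_single 0]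
    · rw [P_tUnit, if_pos rfl, act_tUnit, sh_zero]
      simp only [Category.comp_id, id_tensorHom]
      exact leftUnitor_naturality _
    · intro i _ hi
      rw [P_tUnit, if_neg hi]; simp
    · simp)

def tRight (X : Action 𝒱 (KG n G)) : tObj X tUnit ≅ X :=
  Action.mkIso (ρ_ X.V) (by
    intro g
    change act (tObj X tUnit) g ≫ _ = _ ≫ act X g
    rw [act_tObj]
    simp only [act_tUnit]
    rw [← sum_tensor, ← Preadditive.sum_comp, P_sum, Category.id_comp, tensorHom_id]
    exact rightUnitor_naturality _)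

end Mon

section Cat

variable (n : ℕ) [NeZero n] (G : Type) [Group G]
variable (𝒱 : Type u) [Category.{v} 𝒱] [Preadditive 𝒱] [Linear ℂ 𝒱]
  [MonoidalCategory 𝒱] [MonoidalPreadditive 𝒱] [MonoidalLinear ℂ 𝒱]

/-- the twisted category -/
def Tw : Type _ := Action 𝒱 (KG n G)

instance : Category (Tw n G 𝒱) := inferInstanceAs (Category (Action 𝒱 (KG n G)))
instance : Preadditive (Tw n G 𝒱) := inferInstanceAs (Preadditive (Action 𝒱 (KG n G)))
instance : Linear ℂ (Tw n G 𝒱) := inferInstanceAs (Linear ℂ (Action 𝒱 (KG n G)))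

instance : MonoidalCategoryStruct (Tw n G 𝒱) where
  tensorObj X Y := tObj X Y
  whiskerLeft X _ _ f := tWL X f
  whiskerRight f Z := tWR f Z
  tensorHom f g := tTH f g
  tensorUnit := tUnit
  associator X Y Z := tAssoc X Y Z
  leftUnitor X := tLeft X
  rightUnitor X := tRight X

def Fgt : Tw n G 𝒱 ⥤ 𝒱 := Action.forget 𝒱 (KG n G)

instance : (Fgt n G 𝒱).Faithful := inferInstanceAs (Action.forget 𝒱 (KG n G)).Faithful
instance : (Fgt n G 𝒱).Additive := inferInstanceAs (Action.forget 𝒱 (KG n G)).Additive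
instance : (Fgt n G 𝒱).Linear ℂ := inferInstanceAs ((Action.forget 𝒱 (KG n G)).Linear ℂ)

def indData : Monoidal.InducingFunctorData (Fgt n G 𝒱) where
  μIso X Y := Iso.refl _
  εIso := Iso.refl _
  whiskerLeft_eq X Y₁ Y₂ f := ((Category.id_comp _).trans (Category.comp_id _)).symm
  whiskerRight_eq f Y := ((Category.id_comp _).trans (Category.comp_id _)).symm
  tensorHom_eq f g := ((Category.id_comp _).trans (Category.comp_id _)).symm
  associator_eq X Y Z := by
    have key : ∀ A B C : 𝒱, (α_ A B C).hom = (𝟙 ((A ⊗ B) ⊗ C) ≫ (𝟙 (A ⊗ B) ⊗ₘ 𝟙 C)) ≫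
        (α_ A B C).hom ≫ ((𝟙 A ⊗ₘ 𝟙 (B ⊗ C)) ≫ 𝟙 _) := by intro A B C; simp
    exact key _ _ _
  leftUnitor_eq X := by
    have key : ∀ A : 𝒱, (λ_ A).hom = (𝟙 (𝟙_ 𝒱 ⊗ A) ≫ (𝟙 (𝟙_ 𝒱) ⊗ₘ 𝟙 A)) ≫ (λ_ A).hom := by
      intro A; simp
    exact key _
  rightUnitor_eq X := by
    have key : ∀ A : 𝒱, (ρ_ A).hom = (𝟙 (A ⊗ 𝟙_ 𝒱) ≫ (𝟙 A ⊗ₘ 𝟙 (𝟙_ 𝒱))) ≫ (ρ_ A).hom := by
      intro A; simp
    exact key _

instance : MonoidalCategory (Tw n G 𝒱) := Monoidal.induced (Fgt n G 𝒱) (indData n G 𝒱)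

instance : (Fgt n G 𝒱).Monoidal := Monoidal.fromInducedMonoidal (Fgt n G 𝒱) (indData n G 𝒱)

instance : MonoidalPreadditive (Tw n G 𝒱) := monoidalPreadditive_of_faithful (Fgt n G 𝒱)
instance : MonoidalLinear ℂ (Tw n G 𝒱) := MonoidalLinear.ofFaithful ℂ (Fgt n G 𝒱)

end Cat

section Rigid

variable {n : ℕ} [NeZero n] {G : Type} [Group G]
variable {𝒱 : Type u} [Category.{v} 𝒱] [Preadditive 𝒱] [Linear ℂ 𝒱]
  [MonoidalCategory 𝒱] [MonoidalPreadditive 𝒱] [MonoidalLinear ℂ 𝒱] [RightRigidCategory 𝒱]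

lemma mate_add {X Y : 𝒱} (f g : X ⟶ Y) : (f + g)ᘁ = fᘁ + gᘁ := by
  simp [rightAdjointMate]

lemma mate_smul {X Y : 𝒱} (r : ℂ) (f : X ⟶ Y) : (r • f)ᘁ = r • fᘁ := by
  simp [rightAdjointMate]

lemma mate_zero {X Y : 𝒱} : (0 : X ⟶ Y)ᘁ = 0 := by
  simp [rightAdjointMate]

lemma mate_sum {X Y : 𝒱} {ι : Type} (s : Finset ι) (f : ι → (X ⟶ Y)) :
    (∑ i ∈ s, f i)ᘁ = ∑ i ∈ s, (f i)ᘁ := by
  classical
  induction s using Finset.induction_on with
  | empty => simp [mate_zero]
  | insert a s ha ih => rw [Finset.sum_insert ha, Finset.sum_insert ha, mate_add, ih]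

/-- the dual action -/
def dAct (X : Action 𝒱 (KG n G)) (g : KG n G) : X.Vᘁ ⟶ X.Vᘁ :=
  ∑ i : ZMod n, (P X i ≫ act X ((sh (-i) g.1)⁻¹, g.2⁻¹))ᘁ

lemma dAct_one (X : Action 𝒱 (KG n G)) : dAct X 1 = 𝟙 _ := by
  unfold dAct
  have : ∀ i : ZMod n, (((sh (-i) (1 : KG n G).1)⁻¹, (1 : KG n G).2⁻¹) : KG n G) = 1 := by
    intro i; ext <;> simp
  simp only [this, act_one, Category.comp_id]
  rw [← mate_sum, P_sum, rightAdjointMate_id]

lemma dAct_mul (X : Action 𝒱 (KG n G)) (g h : KG n G) :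
    dAct X (g * h) = dAct X h ≫ dAct X g := by
  unfold dAct
  rw [Preadditive.sum_comp]
  refine Finset.sum_congr rfl (fun i _ => ?_)
  rw [Preadditive.comp_sum, Finset.sum_eq_single i]
  · rw [← comp_rightAdjointMate, P_act_comp, if_pos rfl, ← act_mul]
    congr 3
    ext <;> simp
  · intro j _ hj
    rw [← comp_rightAdjointMate, P_act_comp, if_neg hj, mate_zero]
  · simp

/-- dual object -/
abbrev tDual (X : Action 𝒱 (KG n G)) : Action 𝒱 (KG n G) where
  V := X.Vᘁ
  ρ :=
    { toFun := fun g => dAct X g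
      map_one' := dAct_one X
      map_mul' := fun g h => dAct_mul X g h }

lemma act_tDual (X : Action 𝒱 (KG n G)) (g : KG n G) :
    act (tDual X) g = ∑ i : ZMod n, (P X i ≫ act X ((sh (-i) g.1)⁻¹, g.2⁻¹))ᘁ := rfl

lemma P_tDual (X : Action 𝒱 (KG n G)) (j : ZMod n) : P (tDual X) j = (P X (-j))ᘁ := by
  refine P_eq_of_rz (tDual X) (fun j => (P X (-j))ᘁ) ?_ j
  intro w
  unfold rz
  rw [act_tDual]
  have : ∀ i : ZMod n, (((sh (-i) (1 : ZMod n → G))⁻¹, (Multiplicative.ofAdd w)⁻¹) : KG n G)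
      = (1, Multiplicative.ofAdd (-w)) := by
    intro i; ext <;> simp
  simp only [this]
  refine Fintype.sum_equiv (Equiv.neg _) _ _ (fun i => ?_)
  have h2 := P_rz X i (-w)
  unfold rz at h2
  rw [h2, mate_smul]
  simp

/-- restricted products -/
lemma P_act_tDual (X : Action 𝒱 (KG n G)) (j : ZMod n) (g : KG n G) :
    P (tDual X) j ≫ act (tDual X) g = (P X (-j) ≫ act X ((sh j g.1)⁻¹, g.2⁻¹))ᘁ := by
  rw [P_tDual, act_tDual, Preadditive.comp_sum, Finset.sum_eq_single (-j)]
  · rw [← comp_rightAdjointMate, Category.assoc, ← P_act, ← Category.assoc, P_comp, if_pos rfl,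
      neg_neg]
  · intro i _ hi
    rw [← comp_rightAdjointMate, Category.assoc, ← P_act, ← Category.assoc, P_comp, if_neg hi]
    simp [mate_zero]
  · simp

lemma key1 (X : Action 𝒱 (KG n G)) (x : ZMod n → G) (z : Multiplicative (ZMod n)) :
    act X (x⁻¹, z⁻¹) ≫ act X (x, z) = 𝟙 _ := by
  rw [← act_mul, ← act_one X]
  congr 1
  ext <;> simp

lemma key2 (X : Action 𝒱 (KG n G)) (x : ZMod n → G) (z : Multiplicative (ZMod n)) :
    act X (x, z) ≫ act X (x⁻¹, z⁻¹) = 𝟙 _ := by
  rw [← act_mul, ← act_one X]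
  congr 1
  ext <;> simp

/-- coevaluation is equivariant -/
lemma coev_equiv (X : Action 𝒱 (KG n G)) (g : KG n G) :
    η_ X.V X.Vᘁ ≫ act (tObj X (tDual X)) g = η_ X.V X.Vᘁ := by
  rw [act_tObj]
  have h : ∀ i : ZMod n, η_ X.V X.Vᘁ ≫ ((P X i ≫ act X g) ⊗ₘ act (tDual X) (sh i g.1, g.2)) =
      η_ X.V X.Vᘁ ≫ (P X i ▷ X.Vᘁ) := by
    intro i
    rw [act_tDual, tensor_sum, Preadditive.comp_sum, Finset.sum_eq_single i]
    · rw [MonoidalCategory.tensorHom_def', ← Category.assoc, coevaluation_comp_rightAdjointMate,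
        Category.assoc, ← comp_whiskerRight]
      congr 2
      rw [P_act_comp, if_pos rfl, sh_sh, neg_add_cancel, sh_zero, key1, Category.comp_id]
    · intro j _ hj
      rw [MonoidalCategory.tensorHom_def', ← Category.assoc, coevaluation_comp_rightAdjointMate,
        Category.assoc, ← comp_whiskerRight, P_act_comp, if_neg hj]
      simp
    · simp
  rw [Preadditive.comp_sum]
  simp only [h]
  rw [← Preadditive.comp_sum, ← sum_whiskerRight, P_sum, id_whiskerRight, Category.comp_id]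

lemma ev_equiv (X : Action 𝒱 (KG n G)) (g : KG n G) :
    act (tObj (tDual X) X) g ≫ ε_ X.V X.Vᘁ = ε_ X.V X.Vᘁ := by
  rw [act_tObj]
  have h : ∀ i : ZMod n, ((P (tDual X) i ≫ act (tDual X) g) ⊗ₘ act X (sh i g.1, g.2)) ≫ ε_ X.V X.Vᘁ =
      (X.Vᘁ ◁ P X (-i)) ≫ ε_ X.V X.Vᘁ := by
    intro i
    rw [P_act_tDual, MonoidalCategory.tensorHom_def', Category.assoc,
      rightAdjointMate_comp_evaluation, ← Category.assoc, ← MonoidalCategory.whiskerLeft_comp]
    congr 2
    rw [P_act, ← Category.assoc, key2, Category.id_comp]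
  rw [Preadditive.sum_comp]
  simp only [h]
  rw [← Preadditive.sum_comp, ← whiskerLeft_sum]
  have : ∑ i : ZMod n, P X (-i) = 𝟙 _ := by
    rw [← P_sum X]
    exact Fintype.sum_equiv (Equiv.neg _) _ _ (fun i => by simp)
  rw [this, MonoidalCategory.whiskerLeft_id, Category.id_comp]

variable [SymmetricCategory 𝒱]

lemma coev_equiv' (X : Action 𝒱 (KG n G)) (g : KG n G) :
    (η_ X.V X.Vᘁ ≫ (β_ X.Vᘁ X.V).inv) ≫ act (tObj (tDual X) X) g
      = η_ X.V X.Vᘁ ≫ (β_ X.Vᘁ X.V).inv := by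
  rw [act_tObj]
  have h : ∀ i : ZMod n, (η_ X.V X.Vᘁ ≫ (β_ X.Vᘁ X.V).inv) ≫
      ((P (tDual X) i ≫ act (tDual X) g) ⊗ₘ act X (sh i g.1, g.2)) =
      (η_ X.V X.Vᘁ ≫ (P X (-i) ▷ X.Vᘁ)) ≫ (β_ X.Vᘁ X.V).inv := by
    intro i
    rw [P_act_tDual, Category.assoc, ← BraidedCategory.braiding_inv_naturality,
      ← Category.assoc, MonoidalCategory.tensorHom_def', ← Category.assoc (η_ X.V X.Vᘁ),
      coevaluation_comp_rightAdjointMate, Category.assoc (η_ X.V X.Vᘁ), ← comp_whiskerRight,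
      Category.assoc (P X (-i)), key1, Category.comp_id]
  rw [Preadditive.comp_sum]
  simp only [h]
  rw [← Preadditive.sum_comp, ← Preadditive.comp_sum, ← sum_whiskerRight]
  have : ∑ i : ZMod n, P X (-i) = 𝟙 _ := by
    rw [← P_sum X]
    exact Fintype.sum_equiv (Equiv.neg _) _ _ (fun i => by simp)
  rw [this, id_whiskerRight, Category.comp_id]

lemma ev_equiv' (X : Action 𝒱 (KG n G)) (g : KG n G) :
    act (tObj X (tDual X)) g ≫ ((β_ X.V X.Vᘁ).hom ≫ ε_ X.V X.Vᘁ) =
      (β_ X.V X.Vᘁ).hom ≫ ε_ X.V X.Vᘁ := by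
  rw [act_tObj]
  have h : ∀ i : ZMod n, ((P X i ≫ act X g) ⊗ₘ act (tDual X) (sh i g.1, g.2)) ≫
      ((β_ X.V X.Vᘁ).hom ≫ ε_ X.V X.Vᘁ) =
      (β_ X.V X.Vᘁ).hom ≫ (X.Vᘁ ◁ P X i) ≫ ε_ X.V X.Vᘁ := by
    intro i
    rw [act_tDual, tensor_sum, Preadditive.sum_comp, Finset.sum_eq_single i]
    · rw [← Category.assoc, BraidedCategory.braiding_naturality, Category.assoc]
      congr 1
      rw [MonoidalCategory.tensorHom_def', Category.assoc, rightAdjointMate_comp_evaluation,
        ← Category.assoc, ← MonoidalCategory.whiskerLeft_comp]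
      congr 2
      rw [P_act_comp, if_pos rfl, sh_sh, neg_add_cancel, sh_zero, key2, Category.comp_id]
    · intro j _ hj
      rw [← Category.assoc, BraidedCategory.braiding_naturality, Category.assoc]
      rw [MonoidalCategory.tensorHom_def', Category.assoc, rightAdjointMate_comp_evaluation,
        ← Category.assoc (X.Vᘁ ◁ _), ← MonoidalCategory.whiskerLeft_comp, P_act_comp,
        if_neg (Ne.symm hj)]
      simp
    · simp
  rw [Preadditive.sum_comp]
  simp only [h]
  rw [← Preadditive.comp_sum, ← Preadditive.sum_comp, ← whiskerLeft_sum, P_sum,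
    MonoidalCategory.whiskerLeft_id, Category.id_comp]

end Rigid

section RigidCat

variable (n : ℕ) [NeZero n] (G : Type) [Group G]
variable (𝒱 : Type u) [Category.{v} 𝒱] [Preadditive 𝒱] [Linear ℂ 𝒱]
  [MonoidalCategory 𝒱] [MonoidalPreadditive 𝒱] [MonoidalLinear ℂ 𝒱] [RightRigidCategory 𝒱]
  [SymmetricCategory 𝒱]

/-- right duals -/
@[reducible] def exactR (X : Tw n G 𝒱) : ExactPairing X (show Tw n G 𝒱 from tDual X) where
  coevaluation' := 
    { hom := η_ X.V X.Vᘁ
      comm := fun g => (Category.id_comp _).trans (coev_equiv X g).symm }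
  evaluation' := 
    { hom := ε_ X.V X.Vᘁ
      comm := fun g => (ev_equiv X g).trans (Category.comp_id _).symm }
  coevaluation_evaluation' := Action.Hom.ext (ExactPairing.coevaluation_evaluation X.V X.Vᘁ)
  evaluation_coevaluation' := Action.Hom.ext (ExactPairing.evaluation_coevaluation X.V X.Vᘁ)

@[reducible] def exactL (X : Tw n G 𝒱) : ExactPairing (show Tw n G 𝒱 from tDual X) X where
  coevaluation' := 
    { hom := η_ X.V X.Vᘁ ≫ (β_ X.Vᘁ X.V).inv
      comm := fun g => (Category.id_comp _).trans (coev_equiv' X g).symm }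
  evaluation' := 
    { hom := (β_ X.V X.Vᘁ).hom ≫ ε_ X.V X.Vᘁ
      comm := fun g => (ev_equiv' X g).trans (Category.comp_id _).symm }
  coevaluation_evaluation' := Action.Hom.ext
    (@ExactPairing.coevaluation_evaluation _ _ _ _ _ (BraidedCategory.exactPairing_swap X.V X.Vᘁ))
  evaluation_coevaluation' := Action.Hom.ext
    (@ExactPairing.evaluation_coevaluation _ _ _ _ _ (BraidedCategory.exactPairing_swap X.V X.Vᘁ))

instance : RigidCategory (Tw n G 𝒱) where
  rightDual X := { rightDual := (show Tw n G 𝒱 from tDual X), exact := exactR n G 𝒱 X }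
  leftDual X := { leftDual := (show Tw n G 𝒱 from tDual X), exact := exactL n G 𝒱 X }

end RigidCat

section SS

variable {K : Type} [Group K] [Finite K]

instance : HasFiniteBiproducts (FDRep ℂ K) := Abelian.hasFiniteBiproducts

/-- the functor to vector spaces -/
abbrev VF : FDRep ℂ K ⥤ ModuleCat ℂ := Action.forget (FGModuleCat ℂ) K ⋙ forget₂ (FGModuleCat ℂ) (ModuleCat ℂ)

def dm (X : FDRep ℂ K) : ℕ := Module.finrank ℂ X

lemma dm_iso {X Y : FDRep ℂ K} (e : X ≅ Y) : dm X = dm Y :=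
  LinearEquiv.finrank_eq (FDRep.isoToLinearEquiv e)

lemma inj_of_mono {X Y : FDRep ℂ K} (f : X ⟶ Y) [Mono f] : Function.Injective f.hom.hom.hom := by
  have : Mono ((VF (K := K)).map f) := inferInstance
  exact (ModuleCat.mono_iff_injective _).1 this

lemma dm_le_of_mono {X Y : FDRep ℂ K} (f : X ⟶ Y) [Mono f] : dm X ≤ dm Y :=
  LinearMap.finrank_le_finrank_of_injective (f := f.hom.hom.hom) (inj_of_mono f)

lemma isIso_of_mono_dm {X Y : FDRep ℂ K} (f : X ⟶ Y) [Mono f] (h : dm X = dm Y) : IsIso f := by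
  have h1 := inj_of_mono f
  have h2 : Function.Surjective f.hom.hom.hom :=
    (LinearMap.injective_iff_surjective_of_finrank_eq_finrank (f := f.hom.hom.hom) h).1 h1
  have h3 : IsIso ((VF (K := K)).map f) := by
    rw [ConcreteCategory.isIso_iff_bijective]
    exact ⟨h1, h2⟩
  exact isIso_of_reflects_iso f (VF (K := K))

lemma isZero_of_dm {X : FDRep ℂ K} (h : dm X = 0) : IsZero X := by
  rw [IsZero.iff_id_eq_zero]
  have : Subsingleton X := Module.finrank_zero_iff.1 h
  ext x
  exact Subsingleton.elim _ _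

lemma dm_of_isZero {X : FDRep ℂ K} (h : IsZero X) : dm X = 0 := by
  by_contra hne
  have h1 : Nontrivial X := Module.finrank_pos_iff.1 (Nat.pos_of_ne_zero hne)
  obtain ⟨x, hx⟩ := exists_ne (0 : X)
  rw [IsZero.iff_id_eq_zero] at h
  apply hx
  have := congrArg (fun f : X ⟶ X => f.hom.hom.hom x) h
  exact this

lemma dm_biprod (X Y : FDRep ℂ K) : dm (X ⊞ Y) = dm X + dm Y := by
  have : PreservesBinaryBiproducts (VF (K := K)) := preservesBinaryBiproducts_of_preservesBiproducts _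
  have e1 : (VF (K := K)).obj (X ⊞ Y) ≅ (VF (K := K)).obj X ⊞ (VF (K := K)).obj Y :=
    (VF (K := K)).mapBiprod X Y
  have e2 := ModuleCat.biprodIsoProd ((VF (K := K)).obj X) ((VF (K := K)).obj Y)
  have e3 := (e1 ≪≫ e2).toLinearEquiv
  have := LinearEquiv.finrank_eq e3
  rw [show Module.finrank ℂ ((VF (K := K)).obj (X ⊞ Y)) = dm (X ⊞ Y) from rfl] at this
  rw [this]
  have hX : Module.Finite ℂ ((VF (K := K)).obj X) := inferInstanceAs (Module.Finite ℂ X)
  have hY : Module.Finite ℂ ((VF (K := K)).obj Y) := inferInstanceAs (Module.Finite ℂ Y)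
  exact Module.finrank_prod

/-- a nonzero object has a simple subobject -/
lemma exists_simple_sub (V : FDRep ℂ K) (hV : 0 < dm V) :
    ∃ (S : FDRep ℂ K) (i : S ⟶ V), Simple S ∧ Mono i := by
  classical
  have hex : ∃ d : ℕ, 0 < d ∧ ∃ (S : FDRep ℂ K) (i : S ⟶ V), dm S = d ∧ Mono i :=
    ⟨dm V, hV, V, 𝟙 V, rfl, inferInstance⟩
  obtain ⟨hd0, S, i, hdS, hi⟩ := Nat.find_spec hex
  refine ⟨S, i, ?_, hi⟩
  refine ⟨fun {Y} f hf => ⟨fun hiso h0 => ?_, fun hne => ?_⟩⟩
  · have h1 : IsZero S := by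
      rw [IsZero.iff_id_eq_zero]
      have h3 := IsIso.inv_hom_id f
      rw [← h3]
      exact (congrArg (fun t => inv f ≫ t) h0).trans comp_zero
    have := dm_of_isZero h1
    omega
  · have hY : 0 < dm Y := by
      rcases Nat.eq_zero_or_pos (dm Y) with h | h
      · exact absurd ((isZero_of_dm h).eq_of_src f 0) hne
      · exact h
    have hle : Nat.find hex ≤ dm Y := Nat.find_min' hex ⟨hY, Y, f ≫ i, rfl, mono_comp f i⟩
    have hle2 := dm_le_of_mono f
    exact isIso_of_mono_dm f (by omega)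

lemma split_sub {S V : FDRep ℂ K} (i : S ⟶ V) [Mono i] :
    ∃ W : FDRep ℂ K, Nonempty (V ≅ S ⊞ W) := by
  have : NeZero (Nat.card K : ℂ) := ⟨Nat.cast_ne_zero.mpr Nat.card_pos.ne'⟩
  let SC : ShortComplex (FDRep ℂ K) := ShortComplex.mk i (cokernel.π i) (cokernel.condition i)
  have hex : SC.ShortExact := 
    { exact := ShortComplex.exact_cokernel i
      mono_f := inferInstanceAs (Mono i)
      epi_g := inferInstanceAs (Epi (cokernel.π i)) }
  exact ⟨cokernel i, ⟨(ShortComplex.Splitting.ofExactOfRetraction SC hex.exact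
    (Injective.factorThru (𝟙 S) i) (Injective.comp_factorThru _ _) hex.epi_g).isoBinaryBiproduct⟩⟩

theorem ss_induction (Φ : FDRep ℂ K → Prop) (h0 : ∀ V, IsZero V → Φ V)
    (hiso : ∀ V W, Nonempty (V ≅ W) → Φ V → Φ W)
    (hs : ∀ S W, Simple S → Φ W → Φ (S ⊞ W)) (V : FDRep ℂ K) : Φ V := by
  generalize hd : dm V = d
  induction d using Nat.strong_induction_on generalizing V with
  | _ d ih =>
    rcases Nat.eq_zero_or_pos d with h | h
    · exact h0 V (isZero_of_dm (by omega))
    · obtain ⟨S, i, hS, hi⟩ := exists_simple_sub V (by omega)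
      obtain ⟨W, ⟨e⟩⟩ := split_sub i
      have hdim := dm_iso e
      rw [dm_biprod] at hdim
      have hSpos : 0 < dm S := by
        rcases Nat.eq_zero_or_pos (dm S) with h | h
        · exact absurd (isZero_of_dm h) (Simple.not_isZero S)
        · exact h
      exact hiso _ _ ⟨e.symm⟩ (hs S W hS (ih (dm W) (by omega) W rfl))

/-- the family S, f 0, f 1, ... -/
abbrev cns {m : ℕ} (S : FDRep ℂ K) (f : Fin m → FDRep ℂ K) : Fin (m+1) → FDRep ℂ K := Fin.cons S f

def cA {m : ℕ} (S : FDRep ℂ K) (f : Fin m → FDRep ℂ K) : S ⟶ ⨁ (cns S f) :=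
  biproduct.ι (cns S f) 0

def cB {m : ℕ} (S : FDRep ℂ K) (f : Fin m → FDRep ℂ K) (j : Fin m) : f j ⟶ ⨁ (cns S f) :=
  biproduct.ι (cns S f) j.succ

def cD {m : ℕ} (S : FDRep ℂ K) (f : Fin m → FDRep ℂ K) : ⨁ (cns S f) ⟶ S ⊞ (⨁ f) :=
  biproduct.desc (Fin.cases biprod.inl (fun j => biproduct.ι f j ≫ biprod.inr))

lemma cA_cD {m : ℕ} (S : FDRep ℂ K) (f : Fin m → FDRep ℂ K) : cA S f ≫ cD S f = biprod.inl :=
  biproduct.ι_desc _ _

lemma cB_cD {m : ℕ} (S : FDRep ℂ K) (f : Fin m → FDRep ℂ K) (j : Fin m) :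
    cB S f j ≫ cD S f = biproduct.ι f j ≫ biprod.inr :=
  biproduct.ι_desc _ _

def consIso {m : ℕ} (S : FDRep ℂ K) (f : Fin m → FDRep ℂ K) :
    S ⊞ (⨁ f) ≅ ⨁ (cns S f) where
  hom := biprod.desc (cA S f) (biproduct.desc (cB S f))
  inv := cD S f
  hom_inv_id := by
    apply biprod.hom_ext'
    · rw [biprod.inl_desc_assoc, cA_cD, Category.comp_id]
    · apply biproduct.hom_ext'
      intro j
      rw [biprod.inr_desc_assoc, biproduct.ι_desc_assoc, cB_cD, Category.comp_id]
  inv_hom_id := by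
    apply biproduct.hom_ext'
    intro j
    refine Fin.cases ?_ (fun j => ?_) j
    · change cA S f ≫ _ = cA S f ≫ _
      rw [← Category.assoc, cA_cD, biprod.inl_desc, Category.comp_id]
    · change cB S f j ≫ _ = cB S f j ≫ _
      rw [← Category.assoc, cB_cD, Category.assoc, biprod.inr_desc, biproduct.ι_desc,
        Category.comp_id]

theorem semisimple (V : FDRep ℂ K) :
    ∃ (m : ℕ) (f : Fin m → FDRep ℂ K), (∀ k, Simple (f k)) ∧ Nonempty (V ≅ ⨁ f) := by
  refine ss_induction (fun V => ∃ (m : ℕ) (f : Fin m → FDRep ℂ K),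
    (∀ k, Simple (f k)) ∧ Nonempty (V ≅ ⨁ f)) ?_ ?_ ?_ V
  · intro V hV
    refine ⟨0, Fin.elim0, fun k => k.elim0, ⟨?_⟩⟩
    refine hV.iso ?_
    rw [IsZero.iff_id_eq_zero]
    apply biproduct.hom_ext'
    intro j; exact j.elim0
  · rintro V W ⟨e⟩ ⟨m, f, hf, ⟨e'⟩⟩
    exact ⟨m, f, hf, ⟨e.symm ≪≫ e'⟩⟩
  · rintro S W hS ⟨m, f, hf, ⟨e⟩⟩
    refine ⟨m + 1, Fin.cons S f, ?_, ⟨biprod.mapIso (Iso.refl _) e ≪≫ consIso S f⟩⟩
    intro k
    refine Fin.cases ?_ (fun j => ?_) k
    · exact hS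
    · exact hf j

/-- homs from a biproduct -/
def homBiprod (X Y Z : FDRep ℂ K) : (X ⊞ Y ⟶ Z) ≃ₗ[ℂ] (X ⟶ Z) × (Y ⟶ Z) where
  toFun f := (biprod.inl ≫ f, biprod.inr ≫ f)
  invFun p := biprod.desc p.1 p.2
  map_add' f g := by simp
  map_smul' r f := by simp
  left_inv f := by
    apply biprod.hom_ext' <;> simp
  right_inv p := by simp

lemma finrank_hom_biprod (X Y Z : FDRep ℂ K) :
    Module.finrank ℂ (X ⊞ Y ⟶ Z) = Module.finrank ℂ (X ⟶ Z) + Module.finrank ℂ (Y ⟶ Z) := by
  rw [LinearEquiv.finrank_eq (homBiprod X Y Z), Module.finrank_prod]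

def homIso {X Y : FDRep ℂ K} (e : X ≅ Y) (Z : FDRep ℂ K) : (X ⟶ Z) ≃ₗ[ℂ] (Y ⟶ Z) where
  toFun f := e.inv ≫ f
  invFun f := e.hom ≫ f
  map_add' f g := by simp
  map_smul' r f := by simp
  left_inv f := by simp
  right_inv p := by simp

/-- dimension in terms of multiplicities -/
theorem dm_eq_sum {n : ℕ} (S : Fin n → FDRep ℂ K) (hS : ∀ i, Simple (S i))
    (hinj : ∀ i j, Nonempty (S i ≅ S j) → i = j)
    (hcomp : ∀ X : FDRep ℂ K, Simple X → ∃ i, Nonempty (X ≅ S i)) (V : FDRep ℂ K) :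
    (dm V : ℝ) = ∑ k, (Module.finrank ℂ (V ⟶ S k) : ℝ) * dm (S k) := by
  refine ss_induction (fun V => (dm V : ℝ) = ∑ k, (Module.finrank ℂ (V ⟶ S k) : ℝ) * dm (S k))
    ?_ ?_ ?_ V
  · intro V hV
    rw [dm_of_isZero hV]
    symm
    simp only [Nat.cast_zero]
    refine Finset.sum_eq_zero (fun k _ => ?_)
    have : Subsingleton (V ⟶ S k) := ⟨fun f g => hV.eq_of_src f g⟩
    rw [Module.finrank_zero_of_subsingleton]; simp
  · rintro V W ⟨e⟩ h
    rw [← dm_iso e, h]
    refine Finset.sum_congr rfl (fun k _ => ?_)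
    rw [LinearEquiv.finrank_eq (homIso e (S k))]
  · intro T W hT h
    rw [dm_biprod, Nat.cast_add, h]
    simp only [finrank_hom_biprod, Nat.cast_add, add_mul, Finset.sum_add_distrib]
    congr 1
    obtain ⟨i, ⟨e⟩⟩ := hcomp T hT
    rw [Finset.sum_eq_single i]
    · have := hS i
      rw [FDRep.finrank_hom_simple_simple, if_pos ⟨e⟩, dm_iso e]; simp
    · intro j _ hj
      have := hS j
      rw [FDRep.finrank_hom_simple_simple, if_neg]
      · simp
      · rintro ⟨e'⟩
        exact hj (hinj _ _ ⟨e'.symm ≪≫ e⟩)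
    · simp

/-- the regular representation -/
def regRep : Representation ℂ K (K → ℂ) where
  toFun h :=
    { toFun := fun f g => f (h⁻¹ * g)
      map_add' := fun _ _ => rfl
      map_smul' := fun _ _ => rfl }
  map_one' := by ext f g; simp
  map_mul' a b := by ext f g; simp [mul_assoc]

variable (K) in
def Reg : FDRep ℂ K := FDRep.of (regRep (K := K))

/-- maps out of the regular representation -/
def regMap [Fintype K] (V : FDRep ℂ K) (v : V) : (K → ℂ) →ₗ[ℂ] V where
  toFun f := ∑ g : K, f g • V.ρ g v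
  map_add' f g := by simp [add_smul, Finset.sum_add_distrib]
  map_smul' r f := by simp [Finset.smul_sum, smul_smul]

lemma regMap_equiv [Fintype K] (V : FDRep ℂ K) (v : V) (h : K) (f : K → ℂ) :
    regMap V v (regRep h f) = V.ρ h (regMap V v f) := by
  change ∑ g : K, f (h⁻¹ * g) • V.ρ g v = V.ρ h (∑ g : K, f g • V.ρ g v)
  rw [map_sum]
  symm
  refine Fintype.sum_equiv (Equiv.mulLeft h) _ _ (fun g => ?_)
  simp

theorem finite_simples :
    ∃ (n : ℕ) (S : Fin n → FDRep ℂ K), ∀ X : FDRep ℂ K, Simple X → ∃ i, Nonempty (X ≅ S i) := by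
  have := Fintype.ofFinite K
  obtain ⟨m, f, hf, ⟨e⟩⟩ := semisimple (Reg K)
  refine ⟨m, f, fun X hX => ?_⟩
  have hpos : 0 < dm X := by
    rcases Nat.eq_zero_or_pos (dm X) with h | h
    · exact absurd (isZero_of_dm h) (Simple.not_isZero X)
    · exact h
  have h1 : Nontrivial X := Module.finrank_pos_iff.1 hpos
  obtain ⟨x, hx⟩ := exists_ne (0 : X)
  let φ : Reg K ⟶ X :=
    { hom := FGModuleCat.ofHom (regMap X x)
      comm := by
        intro g
        ext f
        exact regMap_equiv X x g f }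
  have hφ : φ ≠ 0 := by
    classical
    intro h0
    have h2 : regMap X x (Pi.single 1 1) = 0 := congrArg (fun f : Reg K ⟶ X => f.hom.hom.hom (Pi.single 1 1)) h0
    apply hx
    change ∑ g : K, (Pi.single 1 1 : K → ℂ) g • X.ρ g x = 0 at h2
    rw [Finset.sum_eq_single 1] at h2
    · simpa using h2
    · intro b _ hb
      simp [Pi.single_eq_of_ne hb]
    · simp
  have : ∃ j, biproduct.ι f j ≫ e.inv ≫ φ ≠ 0 := by
    by_contra hcon
    push Not at hcon
    apply hφ
    have : e.inv ≫ φ = 0 := by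
      apply biproduct.hom_ext'
      intro j
      rw [hcon j, comp_zero]
    rw [← Category.id_comp φ, ← e.hom_inv_id, Category.assoc, this, comp_zero]
  obtain ⟨j, hj⟩ := this
  have := hf j
  have := isIso_of_hom_simple hj
  exact ⟨j, ⟨(asIso (biproduct.ι f j ≫ e.inv ≫ φ)).symm⟩⟩

end SS


section Main

/-- the symmetric group on three letters -/
abbrev S3 : Type := Equiv.Perm (Fin 3)

/-- matrices of the two-dimensional irreducible representation of S3 -/
def MZ (σ : S3) : Matrix (Fin 2) (Fin 2) ℤ := fun i j =>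
  (if σ j.castSucc = i.castSucc then 1 else 0) - (if σ 2 = i.castSucc then 1 else 0)

lemma MZ_mul : ∀ σ τ : S3, MZ (σ * τ) = MZ σ * MZ τ := by decide

lemma MZ_one : MZ 1 = 1 := by decide

lemma MZ_norm : ∑ σ : S3, (MZ σ).trace * (MZ σ⁻¹).trace = 6 := by decide

/-- complex matrices -/
def MC (σ : S3) : Matrix (Fin 2) (Fin 2) ℂ := (Int.castRingHom ℂ).mapMatrix (MZ σ)

lemma MC_mul (σ τ : S3) : MC (σ * τ) = MC σ * MC τ := by
  unfold MC; rw [MZ_mul, map_mul]

lemma MC_one : MC 1 = 1 := by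
  unfold MC; rw [MZ_one, map_one]

lemma MC_norm : ∑ σ : S3, (MC σ).trace * (MC σ⁻¹).trace = 6 := by
  have h : ∀ σ, (MC σ).trace = (((MZ σ).trace : ℤ) : ℂ) := by
    intro σ
    simp [MC, Matrix.trace]
  simp only [h]
  have := congrArg (Int.cast : ℤ → ℂ) MZ_norm
  push_cast at this ⊢
  exact this

variable (n : ℕ) [NeZero n]

/-- the representation underlying X -/
def rX : Representation ℂ (KG n S3) (Fin 2 → ℂ) where
  toFun g := (ZMod.stdAddChar (Multiplicative.toAdd g.2) : ℂ) • Matrix.toLin' (MC (g.1 0))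
  map_one' := by
    simp [MC_one]; rfl
  map_mul' g h := by
    simp only [Prod.snd_mul, toAdd_mul, AddChar.map_add_eq_mul, Prod.fst_mul, Pi.mul_apply, MC_mul,
      Matrix.toLin'_mul]
    rw [Module.End.mul_eq_comp, LinearMap.smul_comp, LinearMap.comp_smul, smul_smul]

/-- the category -/
abbrev CC : Type 1 := Tw n S3 (FGModuleCat ℂ)

/-- the representation X -/
abbrev XA : Action (FGModuleCat ℂ) (KG n S3) := FDRep.of (rX n)

/-- the object X -/
def XX : CC n := XA n

lemma act_XA (g : KG n S3) : act (XA n) g = FGModuleCat.ofHom (rX n g) := rfl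

lemma rz_XA (w : ZMod n) : rz (XA n) w = (ZMod.stdAddChar w : ℂ) • 𝟙 _ := by
  unfold rz
  rw [act_XA]
  ext v
  simp [rX, MC_one]
  rfl

/-- tensor powers at the level of actions -/
def TA : ℕ → Action (FGModuleCat ℂ) (KG n S3)
  | 0 => tUnit
  | (N + 1) => tObj (TA N) (XA n)

lemma rz_TA (N : ℕ) (w : ZMod n) :
    rz (TA n N) w = (ZMod.stdAddChar ((N : ZMod n) * w) : ℂ) • 𝟙 _ := by
  induction N with
  | zero => 
    simp only [Nat.cast_zero, zero_mul, AddChar.map_zero_eq_one, one_smul]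
    rfl
  | succ N ih =>
    change rz (tObj (TA n N) (XA n)) w = _
    rw [rz_tObj, ih, rz_XA, smul_tensor, tensor_smul, smul_smul, id_tensorHom_id,
      ← AddChar.map_add_eq_mul]
    congr 2
    push_cast
    ring

lemma P_TA (N : ℕ) (i : ZMod n) : P (TA n N) i = if i = (N : ZMod n) then 𝟙 _ else 0 := by
  refine P_eq_of_rz (TA n N) (fun i => if i = (N : ZMod n) then 𝟙 _ else 0) ?_ i
  intro w
  rw [rz_TA]
  simp only [smul_ite, smul_zero, Finset.sum_ite_eq', Finset.mem_univ, if_true]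

lemma act_TA_succ (N : ℕ) (g : KG n S3) :
    act (TA n (N + 1)) g = act (TA n N) g ⊗ₘ act (XA n) (sh (N : ZMod n) g.1, g.2) := by
  change act (tObj (TA n N) (XA n)) g = _
  rw [act_tObj, Finset.sum_eq_single (N : ZMod n)]
  · rw [P_TA, if_pos rfl, Category.id_comp]
  · intro j _ hj
    rw [P_TA, if_neg hj]
    simp
  · simp

lemma char_XA (g : KG n S3) : FDRep.character (XA n) g =
    (ZMod.stdAddChar (Multiplicative.toAdd g.2) : ℂ) * (MC (g.1 0)).trace := by
  change LinearMap.trace ℂ (Fin 2 → ℂ) (rX n g) = _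
  simp [rX, Matrix.trace_toLin'_eq]

lemma char_TA_succ (N : ℕ) (g : KG n S3) : FDRep.character (TA n (N + 1)) g =
    FDRep.character (TA n N) g * FDRep.character (XA n) (sh (N : ZMod n) g.1, g.2) := by
  have h := act_TA_succ n N g
  have h2 := congrArg (fun f : (TA n (N+1)).V ⟶ (TA n (N+1)).V => LinearMap.trace ℂ _ f.hom.hom) h
  refine h2.trans ?_
  exact LinearMap.trace_tensorProduct' _ _

lemma char_TA (N : ℕ) (g : KG n S3) : FDRep.character (TA n N) g =
    (ZMod.stdAddChar ((N : ZMod n) * Multiplicative.toAdd g.2) : ℂ) *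
      ∏ j ∈ Finset.range N, (MC (g.1 (j : ZMod n))).trace := by
  induction N with
  | zero =>
    simp only [Nat.cast_zero, zero_mul, AddChar.map_zero_eq_one, Finset.range_zero,
      Finset.prod_empty, mul_one]
    change LinearMap.trace ℂ ℂ LinearMap.id = 1
    simp
  | succ N ih =>
    rw [char_TA_succ, ih, char_XA, Finset.prod_range_succ]
    simp only [sh, MonoidHom.coe_mk, OneHom.coe_mk, zero_add]
    push_cast
    rw [add_mul, one_mul, AddChar.map_add_eq_mul]
    ring

/-- squared character of the matrix representation -/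
def cc (σ : S3) : ℂ := (MC σ).trace * (MC σ⁻¹).trace

lemma prod_range_eq (N : ℕ) (hN : N ≤ n) (F : ZMod n → ℂ) :
    ∏ j ∈ Finset.range N, F (j : ZMod n) = ∏ k : ZMod n, (if k.val < N then F k else 1) := by
  rw [← Finset.prod_filter]
  refine Finset.prod_nbij (fun j : ℕ => (j : ZMod n)) ?_ ?_ ?_ ?_
  · intro j hj
    have hj' : j < N := Finset.mem_range.1 hj
    simp only [Finset.mem_filter, Finset.mem_univ, true_and]
    rw [ZMod.val_cast_of_lt (by omega)]
    exact hj'
  · intro a ha b hb hab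
    have ha' : a < N := by simpa using ha
    have hb' : b < N := by simpa using hb
    have := congrArg ZMod.val hab
    simp only at this
    rwa [ZMod.val_cast_of_lt (by omega), ZMod.val_cast_of_lt (by omega)] at this
  · intro k hk
    have hk' : k.val < N := by simpa using hk
    exact ⟨k.val, by simpa using hk', by simp⟩
  · intro j _
    rfl

lemma sum_cc (N : ℕ) (hN : N ≤ n) :
    ∑ x : ZMod n → S3, ∏ j ∈ Finset.range N, cc (x (j : ZMod n)) = 6 ^ n := by
  have h1 : ∀ x : ZMod n → S3, ∏ j ∈ Finset.range N, cc (x (j : ZMod n)) =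
      ∏ k : ZMod n, (if k.val < N then cc (x k) else 1) := fun x =>
    prod_range_eq n N hN (fun k => cc (x k))
  simp only [h1]
  have h2 := Finset.prod_univ_sum (fun _ : ZMod n => (Finset.univ : Finset S3))
    (fun k σ => if k.val < N then cc σ else (1 : ℂ))
  rw [Fintype.piFinset_univ] at h2
  rw [← h2]
  have h3 : ∀ k : ZMod n, ∑ σ : S3, (if k.val < N then cc σ else (1 : ℂ)) = 6 := by
    intro k
    split_ifs
    · exact MC_norm
    · simp [Fintype.card_perm, Nat.factorial]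
  simp only [h3, Finset.prod_const, Finset.card_univ, ZMod.card]

theorem simple_TA (N : ℕ) (hN : N ≤ n) : Simple (TA n N : FDRep ℂ (KG n S3)) := by
  rw [FDRep.simple_iff_char_is_norm_one]
  simp only [char_TA]
  have h1 : ∀ g : KG n S3, (ZMod.stdAddChar ((N : ZMod n) * Multiplicative.toAdd g.2) : ℂ) *
      (∏ j ∈ Finset.range N, (MC (g.1 (j : ZMod n))).trace) *
      ((ZMod.stdAddChar ((N : ZMod n) * Multiplicative.toAdd (g⁻¹).2) : ℂ) *
      ∏ j ∈ Finset.range N, (MC ((g⁻¹).1 (j : ZMod n))).trace) =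
      ∏ j ∈ Finset.range N, cc (g.1 (j : ZMod n)) := by
    intro g
    unfold cc
    rw [Finset.prod_mul_distrib]
    have h2 : (ZMod.stdAddChar ((N : ZMod n) * Multiplicative.toAdd g.2) : ℂ) *
        (ZMod.stdAddChar ((N : ZMod n) * Multiplicative.toAdd (g⁻¹).2) : ℂ) = 1 := by
      rw [← AddChar.map_add_eq_mul]
      simp
    calc _ = ((ZMod.stdAddChar ((N : ZMod n) * Multiplicative.toAdd g.2) : ℂ) *
        (ZMod.stdAddChar ((N : ZMod n) * Multiplicative.toAdd (g⁻¹).2) : ℂ)) * 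
        ((∏ j ∈ Finset.range N, (MC (g.1 (j : ZMod n))).trace) * 
        ∏ j ∈ Finset.range N, (MC ((g⁻¹).1 (j : ZMod n))).trace) := by ring
      _ = _ := by rw [h2, one_mul]; rfl
  simp only [h1]
  rw [Fintype.sum_prod_type]
  simp only [Finset.sum_const, Finset.card_univ]
  rw [← Finset.smul_sum, sum_cc n N hN, Nat.card_eq_fintype_card, Fintype.card_prod,
    Fintype.card_fun]
  simp [ZMod.card, Fintype.card_perm, Nat.factorial]
  ring

instance : Abelian (CC n) := inferInstanceAs (Abelian (FDRep ℂ (KG n S3)))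
instance : HasFiniteBiproducts (CC n) := Abelian.hasFiniteBiproducts
instance : Linear ℂ (CC n) := inferInstanceAs (Linear ℂ (FDRep ℂ (KG n S3)))

theorem isFusion : IsFusionCategory (CC n) where
  finiteDimensional_hom X Y := inferInstanceAs
    (FiniteDimensional ℂ ((show FDRep ℂ (KG n S3) from X) ⟶ (show FDRep ℂ (KG n S3) from Y)))
  simple_unit := simple_TA n 0 (Nat.zero_le _)
  semisimple X := semisimple (K := KG n S3) X
  finitely_many_simples := finite_simples (K := KG n S3)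

lemma tensorPow_eq (N : ℕ) : tensorPow (XX n) N = (show CC n from TA n N) := by
  induction N with
  | zero => rfl
  | succ N ih => 
    change tensorPow (XX n) N ⊗ XX n = _
    rw [ih]; rfl

lemma dm_tObj (X Y : Action (FGModuleCat ℂ) (KG n S3)) : dm (tObj X Y) = dm X * dm Y :=
  Module.finrank_tensorProduct (R := ℂ) (M := X) (M' := Y)

lemma dm_pos_of_simple (X : FDRep ℂ (KG n S3)) (hX : Simple X) : 0 < dm X := by
  rcases Nat.eq_zero_or_pos (dm X) with h | h
  · exact absurd (isZero_of_dm h) (Simple.not_isZero X)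
  · exact h

/-- dimension of the underlying vector space -/
def dmC (X : CC n) : ℕ := dm (K := KG n S3) X

lemma dmC_tensor (X Y : CC n) : dmC n (X ⊗ Y) = dmC n X * dmC n Y := dm_tObj n X Y

theorem FP_isGreatest {r : ℕ} (S : Fin r → CC n) (hS : ListsSimples S) (X : CC n) :
    IsGreatest {t : ℝ | ∃ w : Fin r → ℝ, w ≠ 0 ∧ (leftMultMatrix S X).mulVec w = t • w}
      (dmC n X : ℝ) := by
  set d : Fin r → ℝ := fun k => (dmC n (S k) : ℝ) with hd
  have hdpos : ∀ k, 0 < d k := fun k => Nat.cast_pos.mpr (dm_pos_of_simple n _ (hS.simple k))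
  have key : ∀ Y : CC n, (dmC n Y : ℝ) =
      ∑ k, (Module.finrank ℂ (Y ⟶ S k) : ℝ) * d k := fun Y =>
    dm_eq_sum (K := KG n S3) S hS.simple hS.injective hS.complete Y
  have key2 : ∀ j, ∑ k, leftMultMatrix S X j k * d k = (dmC n X : ℝ) * d j := by
    intro j
    have h1 := key (X ⊗ S j)
    rw [dmC_tensor, Nat.cast_mul] at h1
    rw [hd]
    simp only
    rw [h1]
    rfl
  obtain ⟨i0, _⟩ := hS.complete (𝟙_ (CC n)) (isFusion n).simple_unit
  constructor
  · refine ⟨d, ?_, ?_⟩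
    · intro h0
      have := hdpos i0
      rw [h0] at this
      simp at this
    · ext j
      simp only [Matrix.mulVec, dotProduct, Pi.smul_apply, smul_eq_mul]
      exact key2 j
  · rintro t ⟨w, hw, hMw⟩
    have : Nonempty (Fin r) := ⟨i0⟩
    obtain ⟨j0, hj0⟩ := Finite.exists_max (fun j => |w j| / d j)
    obtain ⟨j1, hj1⟩ : ∃ j1, w j1 ≠ 0 := by
      by_contra hcon
      push Not at hcon
      exact hw (funext hcon)
    have hpos : 0 < |w j0| / d j0 := 
      lt_of_lt_of_le (div_pos (abs_pos.mpr hj1) (hdpos j1)) (hj0 j1)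
    have hw0 : 0 < |w j0| := by
      by_contra hcon
      have : |w j0| = 0 := le_antisymm (not_lt.mp hcon) (abs_nonneg _)
      rw [this] at hpos
      simp at hpos
    have hle : ∀ k, |w k| ≤ (|w j0| / d j0) * d k := fun k => by
      have := hj0 k
      rwa [div_le_iff₀ (hdpos k)] at this
    have h1 : t * w j0 = ∑ k, leftMultMatrix S X j0 k * w k := by
      have := congrFun hMw j0
      simp only [Matrix.mulVec, dotProduct, Pi.smul_apply, smul_eq_mul] at this
      exact this.symm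
    have h2 : |t| * |w j0| ≤ (dmC n X : ℝ) * |w j0| := by
      rw [← abs_mul, h1]
      calc |∑ k, leftMultMatrix S X j0 k * w k| ≤ ∑ k, |leftMultMatrix S X j0 k * w k| :=
            Finset.abs_sum_le_sum_abs _ _
        _ ≤ ∑ k, leftMultMatrix S X j0 k * ((|w j0| / d j0) * d k) := by
            refine Finset.sum_le_sum (fun k _ => ?_)
            rw [abs_mul, abs_of_nonneg (show 0 ≤ leftMultMatrix S X j0 k from Nat.cast_nonneg _)]
            exact mul_le_mul_of_nonneg_left (hle k) (Nat.cast_nonneg _)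
        _ = (|w j0| / d j0) * ∑ k, leftMultMatrix S X j0 k * d k := by
            rw [Finset.mul_sum]
            refine Finset.sum_congr rfl (fun k _ => by ring)
        _ = (dmC n X : ℝ) * |w j0| := by
            rw [key2]
            have := (hdpos j0).ne'
            field_simp
    exact le_trans (le_abs_self t) (le_of_mul_le_mul_right h2 hw0)

theorem FPdim_XX {r : ℕ} (S : Fin r → CC n) (hS : ListsSimples S) : FPdim S (XX n) = 2 := by
  unfold FPdim
  rw [(FP_isGreatest n S hS (XX n)).csSup_eq]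
  have : dmC n (XX n) = 2 := by
    change Module.finrank ℂ (Fin 2 → ℂ) = 2
    simp
  exact_mod_cast this

theorem simple_tensorPow (N : ℕ) (hN : N ≤ n) : Simple (tensorPow (XX n) N) := by
  rw [tensorPow_eq]
  exact simple_TA n N hN

theorem simple_XX : Simple (XX n) := by
  have h := simple_tensorPow n 1 (NeZero.one_le)
  change Simple (𝟙_ (CC n) ⊗ XX n) at h
  exact Simple.of_iso (λ_ (XX n)).symm

/-- a complete irredundant list of simple objects exists -/
theorem exists_listsSimples : ∃ (r : ℕ) (S : Fin r → CC n), ListsSimples S := by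
  classical
  obtain ⟨m, S, hS⟩ := (isFusion n).finitely_many_simples
  let s : Setoid {i : Fin m // Simple (S i)} :=
    { r := fun i j => Nonempty (S i.1 ≅ S j.1)
      iseqv := 
        { refl := fun i => ⟨Iso.refl _⟩
          symm := fun ⟨e⟩ => ⟨e.symm⟩
          trans := fun ⟨e⟩ ⟨f⟩ => ⟨e ≪≫ f⟩ } }
  let e := (Fintype.equivFin (Quotient s)).symm
  refine ⟨Fintype.card (Quotient s), fun k => S (e k).out.1, ?_, ?_, ?_⟩
  · intro i
    exact (e i).out.2
  · rintro i j ⟨f⟩
    have h1 : (⟦(e i).out⟧ : Quotient s) = ⟦(e j).out⟧ := Quotient.sound ⟨f⟩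
    rw [Quotient.out_eq, Quotient.out_eq] at h1
    exact e.injective h1
  · intro X hX
    obtain ⟨i, ⟨f⟩⟩ := hS X hX
    have hi : Simple (S i) := Simple.of_iso f.symm
    let q : Quotient s := ⟦⟨i, hi⟩⟧
    refine ⟨e.symm q, ?_⟩
    have h2 : (⟦q.out⟧ : Quotient s) = ⟦⟨i, hi⟩⟧ := Quotient.out_eq q
    obtain ⟨g⟩ := Quotient.exact h2
    simp only [Equiv.apply_symm_apply]
    exact ⟨f ≪≫ g.symm⟩

end Main

/-- There is no absolute constant N₀ such that, for every fusion category C over the complex numbers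
and every simple object X of C with FPdim X > 1, all exponents N with X ^ ⊗ N simple are at
most N₀. -/
theorem result : ¬ ∃ N₀ : ℕ, ∀ (C : Type 1) [Category.{0} C] [Abelian C] [Linear ℂ C]
    [HasFiniteBiproducts C] [MonoidalCategory C] [MonoidalPreadditive C] [MonoidalLinear ℂ C]
    [RigidCategory C], IsFusionCategory C →
    ∀ (r : ℕ) (S : Fin r → C), ListsSimples S →
    ∀ X : C, Simple X → 1 < FPdim S X → ∀ N : ℕ, 1 ≤ N → Simple (tensorPow X N) → N ≤ N₀ := by
  rintro ⟨N₀, h⟩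
  obtain ⟨r, S, hS⟩ := exists_listsSimples (N₀ + 1)
  have := h (CC (N₀ + 1)) (isFusion (N₀ + 1)) r S hS (XX (N₀ + 1)) (simple_XX (N₀ + 1))
    (by rw [FPdim_XX (N₀ + 1) S hS]; norm_num) (N₀ + 1) (by omega)
    (simple_tensorPow (N₀ + 1) (N₀ + 1) le_rfl)
  omega

end

end Pool.Agent.Results.MP_4aeb90_al.NoUniformBound
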